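import Pool.Agent.H58.FL.TargetsD
import Pool.Agent.H37.FL.CLU

/-!
# Row CL6: clusters from the exchange property and the property of six points
-/

set_option autoImplicit false

open Pool.Agent.H58.FL Pool.Agent.H59 Pool.Agent.H48.FR

namespace Pool.Agent.H90.FL

private theorem key {X : Type} (S : Set X) (m : X → X → X → X → ℤ)
    (e01 : ∀ x ∈ S, ∀ y ∈ S, ∀ z ∈ S, ∀ w ∈ S, m y x z w = -m x y z w)
    (e12 : ∀ x ∈ S, ∀ y ∈ S, ∀ z ∈ S, ∀ w ∈ S, m x z y w = -m x y z w)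
    (e23 : ∀ x ∈ S, ∀ y ∈ S, ∀ z ∈ S, ∀ w ∈ S, m x y w z = -m x y z w)
    (h3 : ∀ x ∈ S, ∀ y ∈ S, ∀ z ∈ S, ∀ w ∈ S, ∀ v ∈ S, m x y z w ≠ 0 →
      (m v y z w ≠ 0 ∧ m x v z w = 0 ∧ m x y v w = 0 ∧ m x y z v = 0) ∨
      (m v y z w = 0 ∧ m x v z w ≠ 0 ∧ m x y v w = 0 ∧ m x y z v = 0) ∨
      (m v y z w = 0 ∧ m x v z w = 0 ∧ m x y v w ≠ 0 ∧ m x y z v = 0) ∨
      (m v y z w = 0 ∧ m x v z w = 0 ∧ m x y v w = 0 ∧ m x y z v ≠ 0))
    (h4 : ∀ v ∈ S, ∀ w ∈ S, ∀ a ∈ S, ∀ b ∈ S, ∀ c ∈ S, ∀ z ∈ S, m v a b c ≠ 0 →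
      m w a b c ≠ 0 → m v w a z = 0)
    (v w a b c : X) (hv : v ∈ S) (hw : w ∈ S) (ha : a ∈ S) (hb : b ∈ S) (hc : c ∈ S)
    (hva : m v a b c ≠ 0) (hwa : m w a b c ≠ 0) (y z : X) (hy : y ∈ S) (hz : z ∈ S) :
    m v w y z = 0 := by
  by_contra hne
  -- the exchange of `p`
  have ex : ∀ p ∈ S, ∀ q ∈ S, ∀ r ∈ S, m v p q r ≠ 0 → m w p q r ≠ 0 →
      m p w y z ≠ 0 ∨ m v p y z ≠ 0 := by
    intro p hp q hq r hr h1 h2
    have h5 : m v w p z = 0 := h4 v hv w hw p hp q hq r hr z hz h1 h2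
    have h6 : m v w y p = 0 := by
      rw [e23 v hv w hw p hp y hy, h4 v hv w hw p hp q hq r hr y hy h1 h2, neg_zero]
    rcases h3 v hv w hw y hy z hz p hp hne with h | h | h | h
    · exact Or.inl h.1
    · exact Or.inr h.2.1
    · exact absurd h5 h.2.2.1
    · exact absurd h6 h.2.2.2
  -- two points do not replace the same one
  have two : ∀ p ∈ S, ∀ q ∈ S, ∀ r ∈ S, m v p q r ≠ 0 → m w p q r ≠ 0 →
      ¬ (m v p y z ≠ 0 ∧ m v q y z ≠ 0) ∧ ¬ (m p w y z ≠ 0 ∧ m q w y z ≠ 0) := by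
    intro p hp q hq r hr h1 h2
    have rot : ∀ x ∈ S, m x p q r ≠ 0 → m p q x r ≠ 0 := by
      intro x hx h
      rw [e12 p hp x hx q hq r hr, e01 x hx p hp q hq r hr, neg_neg]
      exact h
    constructor
    · rintro ⟨h5, h6⟩
      refine rot v hv h1 (h4 p hp q hq v hv y hy z hz r hr ?_ ?_)
      · rw [e01 v hv p hp y hy z hz]
        exact neg_ne_zero.2 h5
      · rw [e01 v hv q hq y hy z hz]
        exact neg_ne_zero.2 h6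
    · rintro ⟨h5, h6⟩
      exact rot w hw h2 (h4 p hp q hq w hw y hy z hz r hr h5 h6)
  have p1 : ∀ x ∈ S, m x a b c ≠ 0 → m x a c b ≠ 0 := by
    intro x hx h
    rw [e23 x hx a ha b hb c hc]
    exact neg_ne_zero.2 h
  have p2 : ∀ x ∈ S, m x a b c ≠ 0 → m x b c a ≠ 0 := by
    intro x hx h
    rw [e23 x hx b hb a ha c hc, e12 x hx a ha b hb c hc, neg_neg]
    exact h
  have p3 : ∀ x ∈ S, m x a b c ≠ 0 → m x c a b ≠ 0 := by
    intro x hx h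
    rw [e12 x hx a ha c hc b hb, e23 x hx a ha b hb c hc, neg_neg]
    exact h
  have x1 := ex a ha b hb c hc hva hwa
  have x2 := ex b hb c hc a ha (p2 v hv hva) (p2 w hw hwa)
  have x3 := ex c hc a ha b hb (p3 v hv hva) (p3 w hw hwa)
  have y1 := two a ha b hb c hc hva hwa
  have y2 := two a ha c hc b hb (p1 v hv hva) (p1 w hw hwa)
  have y3 := two b hb c hc a ha (p2 v hv hva) (p2 w hw hwa)
  tauto

theorem pf_CL6 : T_CL6 := by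
  intro X S m h1 h2 h3 h4 h5
  have e01 : ∀ x ∈ S, ∀ y ∈ S, ∀ z ∈ S, ∀ w ∈ S, m y x z w = -m x y z w :=
    fun x hx y hy z hz w hw => (h1 x hx y hy z hz w hw).1
  have e12 : ∀ x ∈ S, ∀ y ∈ S, ∀ z ∈ S, ∀ w ∈ S, m x z y w = -m x y z w :=
    fun x hx y hy z hz w hw => (h1 x hx y hy z hz w hw).2.1
  have e23 : ∀ x ∈ S, ∀ y ∈ S, ∀ z ∈ S, ∀ w ∈ S, m x y w z = -m x y z w :=
    fun x hx y hy z hz w hw => (h1 x hx y hy z hz w hw).2.2.1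
  refine Pool.Agent.H37.FL.pf_CLU X S m (fun v w => ∃ y ∈ S, ∃ z ∈ S, m v w y z ≠ 0) h1 h2 h3
    (fun x hx y hy z hz w hw h => ⟨z, hz, w, hw, h⟩) ?_ h5
  rintro x hx y hy z hz w hw v hv h6 h7 ⟨s, hs, t, ht, h8⟩
  have rot : ∀ u ∈ S, m x y z u ≠ 0 → m u x y z ≠ 0 := by
    intro u hu h
    rw [e01 x hx u hu y hy z hz, e12 x hx y hy u hu z hz, e23 x hx y hy z hz u hu]
    rw [neg_neg]
    exact neg_ne_zero.2 h
  have h9 : m x y z v ≠ 0 := by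
    rw [h7]
    exact h6
  exact h8 (key S m e01 e12 e23 h3 h4 w v x y z hw hv hx hy hz (rot w hw h6) (rot v hv h9)
    s t hs ht)

end Pool.Agent.H90.FL
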